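import Pool.Agent.Helper85.IW.Statements

/-! MP_3dd6d4_an, module B1 of helper85's plan: the spatial inequality. -/

set_option autoImplicit false
set_option maxSynthPendingDepth 3

open MeasureTheory Complex
open scoped ENNReal NNReal ComplexConjugate

noncomputable section

namespace Helper85.IW.M_B1

open Helper72.BA

theorem comp_line {V : Type} [NormedAddCommGroup V] [NormedSpace ℝ V] {H : E → V} {F : ℂ → E}
    {F' : E} {z v : ℂ} (hH : DifferentiableAt ℝ H (F z)) (hF : HasLineDerivAt ℝ F F' z v) :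
    HasLineDerivAt ℝ (fun z => H (F z)) (fderiv ℝ H (F z) F') z v := by
  have h0 : F (z + (0 : ℝ) • v) = F z := by simp
  have h1 : HasFDerivAt H (fderiv ℝ H (F z)) (F (z + (0 : ℝ) • v)) := by
    rw [h0]; exact hH.hasFDerivAt
  exact h1.comp_hasDerivAt (0 : ℝ) hF

theorem bdd_of {V : Type} [NormedAddCommGroup V] [NormedSpace ℝ V] {H : E → V}
    (hH : ContDiff ℝ 1 H) (h0 : H 0 = 0) (K : ℝ) :
    ∃ M : ℝ, 0 ≤ M ∧ (∀ z, ‖z‖ ≤ K → ‖fderiv ℝ H z‖ ≤ M) ∧ (∀ z, ‖z‖ ≤ K → ‖H z‖ ≤ M * ‖z‖) := by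
  have hc : Continuous (fderiv ℝ H) := hH.continuous_fderiv (by norm_num)
  obtain ⟨M, hM⟩ := (isCompact_closedBall (0 : E) K).exists_bound_of_continuousOn
    (f := fderiv ℝ H) hc.continuousOn
  have hM' : ∀ z ∈ Metric.closedBall (0 : E) K, ‖fderiv ℝ H z‖ ≤ max M 0 := fun z hz =>
    (hM z hz).trans (le_max_left _ _)
  refine ⟨max M 0, le_max_right _ _, fun z hz => hM' z (by simpa using hz), fun z hz => ?_⟩
  have hz' : z ∈ Metric.closedBall (0 : E) K := by simpa using hz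
  have h0' : (0 : E) ∈ Metric.closedBall (0 : E) K := by
    simp only [Metric.mem_closedBall, dist_self]
    exact (norm_nonneg z).trans hz
  have := (convex_closedBall (0 : E) K).norm_image_sub_le_of_norm_fderiv_le (f := H)
    (fun x _ => (hH.differentiable (by norm_num)) x) hM' h0' hz'
  rwa [h0, sub_zero, sub_zero] at this

theorem integ {φ : ℂ → ℝ} {a b : ℂ → E} (hφ : Continuous φ) (ha : MemLp a 2) (hb : MemLp b 2)
    {M : ℝ} (h : ∀ z, |φ z| ≤ M * (‖a z‖ * ‖b z‖)) : Integrable φ := by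
  have h1 : Integrable (fun z => ‖a z‖ * ‖b z‖) := ha.norm.integrable_mul hb.norm
  exact (h1.const_mul M).mono' hφ.aestronglyMeasurable (Filter.Eventually.of_forall h)

theorem main : StB1 := by
  intro U G η hS F Fx Fy Fxx Fxy Fyy hF hFx hFy hFxx hFxy hFyy hb mF mFx mFy mFxx mFxy mFyy
    dx dy dxx dxy dyx dyy hCR
  obtain ⟨K, hK⟩ := hb
  obtain ⟨M, hM0, hM1, hM2⟩ := bdd_of hS.cG hS.G0 K
  obtain ⟨N, hN0, hN1, hN2⟩ := bdd_of hS.cη hS.η0 K
  have cdG : Continuous (fun z => fderiv ℝ G (F z)) :=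
    (hS.cG.continuous_fderiv (by norm_num)).comp hF
  have cdη : Continuous (fun z => fderiv ℝ η (F z)) :=
    (hS.cη.continuous_fderiv (by norm_num)).comp hF
  have cG : Continuous (fun z => G (F z)) := hS.cG.continuous.comp hF
  have cη : Continuous (fun z => η (F z)) := hS.cη.continuous.comp hF
  have dG : ∀ z, DifferentiableAt ℝ G z := fun z => (hS.cG.differentiable (by norm_num)) z
  have dη : ∀ z, DifferentiableAt ℝ η z := fun z => (hS.cη.differentiable (by norm_num)) z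
  -- integrability of `H (F z) (b z)` and of `fderiv H (F z) (a z) (b z)`
  have I1 : ∀ (H : E → (E →L[ℝ] ℝ)) (M : ℝ) (b : ℂ → E), Continuous (fun z => H (F z)) →
      (∀ z, ‖z‖ ≤ K → ‖H z‖ ≤ M * ‖z‖) → Continuous b → MemLp b 2 →
      Integrable (fun z => H (F z) (b z)) := by
    intro H M b hH hM hb mb
    refine integ (hH.clm_apply hb) mF mb (M := M) fun z => ?_
    have h1 := (H (F z)).le_opNorm (b z)
    rw [Real.norm_eq_abs] at h1
    refine h1.trans ?_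
    rw [← mul_assoc]
    exact mul_le_mul_of_nonneg_right (hM _ (hK z)) (norm_nonneg _)
  have I2 : ∀ (H : E → (E →L[ℝ] ℝ)) (M : ℝ) (a b : ℂ → E), Continuous (fun z => fderiv ℝ H (F z)) →
      (∀ z, ‖z‖ ≤ K → ‖fderiv ℝ H z‖ ≤ M) → Continuous a → Continuous b → MemLp a 2 →
      MemLp b 2 → Integrable (fun z => fderiv ℝ H (F z) (a z) (b z)) := by
    intro H M a b hH hM ha hb ma mb
    refine integ ((hH.clm_apply ha).clm_apply hb) ma mb (M := M) fun z => ?_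
    have h1 := (fderiv ℝ H (F z)).le_opNorm₂ (a z) (b z)
    rw [Real.norm_eq_abs] at h1
    refine h1.trans ?_
    rw [mul_assoc]
    exact mul_le_mul_of_nonneg_right (hM _ (hK z)) (by positivity)
  have key : ∀ (H : E → (E →L[ℝ] ℝ)) (M : ℝ) (a b b' : ℂ → E) (v : ℂ),
      (∀ z, DifferentiableAt ℝ H z) → Continuous (fun z => H (F z)) →
      Continuous (fun z => fderiv ℝ H (F z)) →
      (∀ z, ‖z‖ ≤ K → ‖fderiv ℝ H z‖ ≤ M) → (∀ z, ‖z‖ ≤ K → ‖H z‖ ≤ M * ‖z‖) →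
      Continuous a → Continuous b → Continuous b' → MemLp a 2 → MemLp b 2 → MemLp b' 2 →
      (∀ z, HasLineDerivAt ℝ F (a z) z v) → (∀ z, HasLineDerivAt ℝ b (b' z) z v) →
      ∫ z, H (F z) (b' z) = - ∫ z, fderiv ℝ H (F z) (a z) (b z) := by
    intro H M a b b' v dH cH cdH hM1 hM2 ca cb cb' ma mb mb' hFa hbb
    exact integral_bilinear_hasLineDerivAt_right_eq_neg_left_of_integrable
      (f := fun z => H (F z)) (f' := fun z => fderiv ℝ H (F z) (a z)) (g := b) (g' := b') (v := v)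
      (B := ContinuousLinearMap.id ℝ (E →L[ℝ] ℝ))
      (I2 H M a b cdH hM1 ca cb ma mb) (I1 H M b' cH hM2 cb' mb') (I1 H M b cH hM2 cb mb)
      (fun z _ => comp_line (dH _) (hFa z)) (fun z _ => hbb z)
  have e1 := key G M Fx Fx Fxx 1 dG cG cdG hM1 hM2 hFx hFx hFxx mFx mFx mFxx dx dxx
  have e2 := key G M Fy Fy Fyy I dG cG cdG hM1 hM2 hFy hFy hFyy mFy mFy mFyy dy dyy
  have e3 := key η N Fx Fy Fxy 1 dη cη cdη hN1 hN2 hFx hFy hFxy mFx mFy mFxy dx dyx
  have e4 := key η N Fy Fx Fxy I dη cη cdη hN1 hN2 hFy hFx hFxy mFy mFx mFxy dy dxy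
  have i1 := I2 G M Fx Fx cdG hM1 hFx hFx mFx mFx
  have i2 := I2 G M Fy Fy cdG hM1 hFy hFy mFy mFy
  have i3 := I2 η N Fx Fy cdη hN1 hFx hFy mFx mFy
  have i4 := I2 η N Fy Fx cdη hN1 hFy hFx mFy mFx
  have e5 : ∫ z, G (F z) (Fxx z + Fyy z) = (∫ z, G (F z) (Fxx z)) + ∫ z, G (F z) (Fyy z) := by
    rw [← integral_add (I1 G M Fxx cG hM2 hFxx mFxx) (I1 G M Fyy cG hM2 hFyy mFyy)]
    exact integral_congr_ae (Filter.Eventually.of_forall fun z => map_add _ _ _)
  have e6 : 0 ≤ ∫ z, PIq (fderiv ℝ G (F z)) (fderiv ℝ η (F z)) (Fx z) (Fy z) :=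
    integral_nonneg fun z => hS.pi _ _ _ (hCR z)
  have e7 : ∫ z, PIq (fderiv ℝ G (F z)) (fderiv ℝ η (F z)) (Fx z) (Fy z) =
      (∫ z, fderiv ℝ G (F z) (Fx z) (Fx z)) + (∫ z, fderiv ℝ G (F z) (Fy z) (Fy z))
      + (∫ z, fderiv ℝ η (F z) (Fx z) (Fy z)) - (∫ z, fderiv ℝ η (F z) (Fy z) (Fx z)) := by
    have j1 := integral_add i1 i2
    have j2 := integral_add (i1.add i2) i3
    have j3 := integral_sub ((i1.add i2).add i3) i4
    simp only [Pi.add_apply] at j2 j3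
    rw [← j1, ← j2, ← j3]
    rfl
  rw [e5, e1, e2]
  rw [e7] at e6
  linarith

end Helper85.IW.M_B1
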