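import Pool.Agent.Helper85.IW.Statements

/-! MP_3dd6d4_an, module C1 of helper85's plan: mollification of an admissible triple. -/

set_option autoImplicit false
set_option maxSynthPendingDepth 3

open MeasureTheory Complex Filter Topology
open scoped ENNReal NNReal ComplexConjugate

noncomputable section

namespace Helper85.IW.M_C1

open Helper72.BA

instance haarE : (volume : Measure E).IsAddHaarMeasure :=
  inferInstanceAs ((volume : Measure ℂ).prod (volume : Measure ℂ)).IsAddHaarMeasure

theorem rho_nonneg (n : ℕ) (y : E) : 0 ≤ rho n y := (bmp n).nonneg_normed y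

theorem rho_cont (n : ℕ) : Continuous (rho n) := (bmp n).continuous_normed

theorem rho_int (n : ℕ) : Integrable (rho n) := (bmp n).integrable_normed

theorem rho_supp (n : ℕ) (y : E) (h : rho n y ≠ 0) : ‖y‖ < 1 := by
  have h1 : y ∈ Function.support ((bmp n).normed volume) := h
  rw [(bmp n).support_normed_eq, Metric.mem_ball, dist_zero_right] at h1
  refine h1.trans_le ?_
  change 1 / ((n : ℝ) + 1) ≤ 1
  rw [div_le_one (by positivity)]
  linarith [Nat.cast_nonneg (α := ℝ) n]

theorem cont_of_lip {V : Type} [NormedAddCommGroup V] {H : E → V}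
    (h : ∀ R : ℝ, ∃ K : ℝ≥0, LipschitzOnWith K H (Metric.closedBall 0 R)) : Continuous H := by
  rw [continuous_iff_continuousAt]
  intro z
  obtain ⟨K, hK⟩ := h (‖z‖ + 1)
  refine hK.continuousOn.continuousAt ?_
  refine Filter.mem_of_superset (Metric.closedBall_mem_nhds z one_pos) ?_
  intro w hw
  rw [Metric.mem_closedBall, dist_eq_norm] at hw
  rw [Metric.mem_closedBall, dist_zero_right]
  calc ‖w‖ = ‖z + (w - z)‖ := by congr 1; abel
    _ ≤ ‖z‖ + ‖w - z‖ := norm_add_le _ _
    _ ≤ ‖z‖ + 1 := by linarith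

theorem rho_bound {V : Type} [NormedAddCommGroup V] [NormedSpace ℝ V] {H : E → V}
    (hH : Continuous H) (z : E) : ∃ M : ℝ, 0 ≤ M ∧ ∀ n y, ∀ x ∈ Metric.closedBall z 1,
      ‖rho n y • H (x - y)‖ ≤ M * rho n y := by
  obtain ⟨M, hM⟩ := (isCompact_closedBall (0 : E) (‖z‖ + 2)).exists_bound_of_continuousOn
    (f := H) hH.continuousOn
  refine ⟨max M 0, le_max_right _ _, fun n y x hx => ?_⟩
  rw [norm_smul, Real.norm_of_nonneg (rho_nonneg n y), mul_comm]
  by_cases h : rho n y = 0
  · rw [h]; simp
  · refine mul_le_mul_of_nonneg_right ((hM _ ?_).trans (le_max_left _ _)) (rho_nonneg n y)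
    have h1 := rho_supp n y h
    rw [Metric.mem_closedBall, dist_eq_norm] at hx
    rw [Metric.mem_closedBall, dist_zero_right]
    calc ‖x - y‖ = ‖z + (x - z) - y‖ := by congr 1; abel
      _ ≤ ‖z + (x - z)‖ + ‖y‖ := norm_sub_le _ _
      _ ≤ ‖z‖ + ‖x - z‖ + ‖y‖ := by gcongr; exact norm_add_le _ _
      _ ≤ ‖z‖ + 2 := by linarith

theorem mol_integrable {V : Type} [NormedAddCommGroup V] [NormedSpace ℝ V] {H : E → V}
    (hH : Continuous H) (n : ℕ) (z : E) : Integrable (fun y => rho n y • H (z - y)) := by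
  obtain ⟨M, hM0, hM⟩ := rho_bound hH z
  refine ((rho_int n).const_mul M).mono' ?_ (Filter.Eventually.of_forall fun y =>
    hM n y z (Metric.mem_closedBall_self zero_le_one))
  exact ((rho_cont n).smul (hH.comp (by fun_prop : Continuous fun y : E => z - y))).aestronglyMeasurable

theorem mol_deriv {U : E → ℝ} {G : E → (E →L[ℝ] ℝ)} (hU : ∀ z, HasFDerivAt U (G z) z)
    (hG : Continuous G) (n : ℕ) (z : E) : HasFDerivAt (mol n U) (mol n G z) z := by
  have cU : Continuous U := continuous_iff_continuousAt.2 fun z => (hU z).continuousAt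
  obtain ⟨M, hM0, hM⟩ := rho_bound hG z
  refine hasFDerivAt_integral_of_dominated_of_fderiv_le (μ := volume) (s := Metric.closedBall z 1)
    (F := fun x y => rho n y • U (x - y)) (F' := fun x y => rho n y • G (x - y))
    (bound := fun y => M * rho n y)
    (Metric.closedBall_mem_nhds z one_pos) (Filter.Eventually.of_forall fun x =>
      (mol_integrable cU n x).aestronglyMeasurable) (mol_integrable cU n z)
    (mol_integrable hG n z).aestronglyMeasurable
    (Filter.Eventually.of_forall fun y x hx => hM n y x hx)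
    ((rho_int n).const_mul M) (Filter.Eventually.of_forall fun y x hx => ?_)
  have h1 : HasFDerivAt (fun x : E => x - y) (ContinuousLinearMap.id ℝ E) x :=
    (hasFDerivAt_id x).sub_const y
  have h2 : HasFDerivAt (fun x : E => U (x - y)) ((G (x - y)).comp (ContinuousLinearMap.id ℝ E)) x :=
    (hU (x - y)).comp x h1
  rw [ContinuousLinearMap.comp_id] at h2
  exact h2.const_smul (rho n y)

theorem eval2 {φ : E → (E →L[ℝ] E →L[ℝ] ℝ)} (hφ : Integrable φ) (X Y : E) :
    Integrable (fun y => φ y X Y) ∧ (∫ y, φ y) X Y = ∫ y, φ y X Y := by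
  have h1 : Integrable (fun y => φ y X) := hφ.apply_continuousLinearMap X
  refine ⟨h1.apply_continuousLinearMap Y, ?_⟩
  rw [ContinuousLinearMap.integral_apply hφ X, ContinuousLinearMap.integral_apply h1 Y]

theorem main (hC : StC1a) : StC1 := by
  intro U G η hA
  have cU : Continuous U := continuous_iff_continuousAt.2 fun z => (hA.der z).continuousAt
  have cG : Continuous G := cont_of_lip hA.lipG
  have aG : ∀ᵐ z : E, DifferentiableAt ℝ G z := hA.pi.mono fun z h => h.1
  have aη : ∀ᵐ z : E, DifferentiableAt ℝ η z := hA.pi.mono fun z h => h.2.1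
  have HG := hC G hA.lipG hA.oddG aG
  have Hη := hC η hA.lipη hA.oddη aη
  have dUs : ∀ n z, HasFDerivAt (fun z => mol n U z - mol n U 0) (mol n G z) z := fun n z =>
    (mol_deriv hA.der cG n z).sub_const _
  refine ⟨fun n z => mol n U z - mol n U 0, fun n => mol n G, fun n => mol n η, fun n => ?_,
    fun z => ?_, fun R => ?_⟩
  · refine ⟨dUs n, (HG n).1, (Hη n).1, by simp, (HG n).2.1, (Hη n).2.1, fun z X Y hXY => ?_⟩
    obtain ⟨iG, eG⟩ := (HG n).2.2.1 z
    obtain ⟨iη, eη⟩ := (Hη n).2.2.1 z
    rw [eG, eη]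
    unfold PIq
    have j1 := integral_add (eval2 iG X X).1 (eval2 iG Y Y).1
    have j2 := integral_add ((eval2 iG X X).1.add (eval2 iG Y Y).1) (eval2 iη X Y).1
    have j3 := integral_sub (((eval2 iG X X).1.add (eval2 iG Y Y).1).add (eval2 iη X Y).1)
        (eval2 iη Y X).1
    simp only [Pi.add_apply] at j2 j3
    rw [(eval2 iG X X).2, (eval2 iG Y Y).2, (eval2 iη X Y).2, (eval2 iη Y X).2, ← j1, ← j2, ← j3]
    refine integral_nonneg_of_ae ?_
    have hq : Filter.Tendsto (fun y : E => z - y) (ae volume) (ae volume) :=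
      (Measure.measurePreserving_sub_left (volume : Measure E) z).quasiMeasurePreserving.tendsto_ae
    filter_upwards [hq.eventually hA.pi] with y hy
    have h1 := mul_nonneg (rho_nonneg n y) (hy.2.2 X Y hXY)
    unfold PIq at h1
    simp only [Pi.zero_apply, _root_.smul_apply, smul_eq_mul]
    linarith
  · have h1 : Tendsto (fun n => (bmp n).rOut) atTop (𝓝 0) := tendsto_one_div_add_atTop_nhds_zero_nat
    have h2 : ∀ x, Tendsto (fun n => mol n U x) atTop (𝓝 (U x)) := fun x =>
      ContDiffBump.convolution_tendsto_right_of_continuous (μ := (volume : Measure E)) h1 cU x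
    have h3 := (h2 z).sub (h2 0)
    rw [hA.U0, sub_zero] at h3
    exact h3
  · obtain ⟨K, hK⟩ := hA.lipG (R + 1)
    refine ⟨K, fun n z hz => ?_⟩
    have h1 : ∀ w : E, ‖w‖ ≤ R → ‖mol n G w‖ ≤ K * ‖w‖ := by
      intro w hw
      have h2 := (HG n).2.2.2 R K hK
      have h3 := h2.norm_sub_le (x := w) (y := 0) (by simpa using hw)
        (by simpa using (norm_nonneg w).trans hw)
      rwa [(HG n).2.1, sub_zero, sub_zero] at h3
    have h4 : ∀ w ∈ Metric.closedBall (0 : E) ‖z‖, ‖mol n G w‖ ≤ K * ‖z‖ := by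
      intro w hw
      rw [Metric.mem_closedBall, dist_zero_right] at hw
      exact (h1 w (hw.trans hz)).trans (mul_le_mul_of_nonneg_left hw K.2)
    have h5 := (convex_closedBall (0 : E) ‖z‖).norm_image_sub_le_of_norm_hasFDerivWithin_le
      (f := fun z => mol n U z - mol n U 0) (f' := mol n G)
      (fun w _ => (dUs n w).hasFDerivWithinAt) h4
      (x := 0) (y := z) (by simp) (by simp)
    simp only [sub_self, sub_zero, Real.norm_eq_abs] at h5
    calc |mol n U z - mol n U 0| ≤ K * ‖z‖ * ‖z‖ := h5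
      _ = K * ‖z‖ ^ 2 := by ring

end Helper85.IW.M_C1
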